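import Pool.Agent.Run7.h414.DP.Eng

/-!
# Primes which split in the quadratic fields `ℚ(√n)`, for random `n` with determinantal digits

The digits of the random integer `v` are given by a determinantal random set `S` of positions (a determinantal point process
with an arbitrary Hermitian kernel): the digit number `i` is `y i` if `i ∈ S` and `x i ≠ y i` otherwise. Examples (their
existence is not used and not formalised): the edges of a uniform spanning tree of a graph with `k` edges; stationary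
determinantal processes with any symbol which is not almost everywhere `0` or almost everywhere `1` (for example the discrete
sine process with any density); independent digits; and all the events for such processes whose probability is at least
`1 / k ^ t`, for example a prescribed number of elements of `S`.

Definitions used (in `Pool.Agent.Run7.h414.DP.Law`, `Pool.Agent.Run7.h414.DP.Fam` and `Pool.Agent.Run7.h414.DP.Alm`):
`DetLaw`, `GoodPos`, `DetDigits`, `AlmostD`.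

Method: the characteristic function is `det (1 + D A)`; the inequality `|det N|² ≤ exp (tr N* N - k)` for
`N = 1 + B D B*`, `A = B* B`, bounds it by `exp (- E)` with an energy `E` which is at least a constant times the number of
the places where the frequency is far from the rational numbers with small denominators. The passage to sums over primes of functions of residues is from the starting files (`Pool.Agent.R459.Eq`,
`Pool.Agent.N794.CG`).
-/

set_option autoImplicit false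

namespace Pool.Agent.Results.MP_aaa0df_nt.DeterminantalFields

open Finset Filter Pool.Agent.R459.Eq Pool.Agent.N794.CG
open Pool.Agent.Run7.h414.DP (DetDigits AlmostD almostD_of twist_det det_nonneg)

/-- `d` is `1` or the discriminant of a quadratic field. -/
def Fund (d : ℤ) : Prop := (d % 4 = 1 ∧ Squarefree d) ∨ ∃ m : ℤ, d = 4 * m ∧ (m % 4 = 2 ∨ m % 4 = 3) ∧ Squarefree m

/-- The number of the primes `p < t` in `T` which split in the quadratic field with the discriminant `d`. -/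
noncomputable def split (T : Set ℕ) (d : ℤ) (t : ℝ) : ℕ :=
  Set.ncard {p : ℕ | p.Prime ∧ p ∈ T ∧ (p : ℝ) < t ∧ ¬ ((p : ℤ) ∣ d) ∧ ∃ x : ℤ, (4 * (p : ℤ)) ∣ x ^ 2 - d}

/-- The number of the primes `p < t` in `T`. -/
noncomputable def total (T : Set ℕ) (t : ℝ) : ℕ := Set.ncard {p : ℕ | p.Prime ∧ p ∈ T ∧ (p : ℝ) < t}

lemma fund_mod {d : ℤ} (h : Fund d) : d % 4 = 1 ∨ d % 4 = 0 := by
  rcases h with h | ⟨m, hm, _⟩
  · exact Or.inl h.1
  · right
    rw [hm]
    exact Int.mul_emod_right 4 m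

/-- the primes with `(n / p) = 1` split -/
lemma splits {p : ℕ} (hp : p.Prime) (hp2 : p ≠ 2) {n d m : ℤ} (hd : Fund d) (h : 4 * n = d * m ^ 2) (hJ : jacobiSym n p = 1) :
    ¬ ((p : ℤ) ∣ d) ∧ ∃ x : ℤ, (4 * (p : ℤ)) ∣ x ^ 2 - d := by
  haveI : Fact p.Prime := ⟨hp⟩
  rw [← jacobiSym.legendreSym.to_jacobiSym] at hJ
  have hn0 : (n : ZMod p) ≠ 0 := by
    intro h0
    rw [(legendreSym.eq_zero_iff p n).2 h0] at hJ
    norm_num at hJ
  obtain ⟨r, hr⟩ := (legendreSym.eq_one_iff p hn0).1 hJ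
  have h2 : (2 : ZMod p) ≠ 0 := by
    intro h0
    have h1 : ((2 : ℕ) : ZMod p) = 0 := by exact_mod_cast h0
    rw [ZMod.natCast_eq_zero_iff] at h1
    exact hp2 ((Nat.prime_dvd_prime_iff_eq hp Nat.prime_two).1 h1)
  have h3 : (4 : ZMod p) * n = d * (m : ZMod p) ^ 2 := by
    have := congrArg (fun z : ℤ => (z : ZMod p)) h
    push_cast at this
    exact this
  have h4 : (4 : ZMod p) = 2 * 2 := by norm_num
  have hm0 : (m : ZMod p) ≠ 0 := by
    intro h0
    rw [h0, h4] at h3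
    have : (2 : ZMod p) * 2 * n ≠ 0 := mul_ne_zero (mul_ne_zero h2 h2) hn0
    apply this
    rw [h3]
    ring
  have hd0 : (d : ZMod p) ≠ 0 := by
    intro h0
    rw [h0, h4] at h3
    have : (2 : ZMod p) * 2 * n ≠ 0 := mul_ne_zero (mul_ne_zero h2 h2) hn0
    apply this
    rw [h3]
    ring
  obtain ⟨y, hy⟩ : ∃ y : ℤ, (y : ZMod p) = 2 * r / m := ⟨((2 * r / (m : ZMod p)).val : ℤ), by simp⟩
  have hy2 : (y : ZMod p) ^ 2 = d := by
    rw [hy]
    field_simp
    linear_combination h3 - 4 * hr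
  refine ⟨fun h5 => hd0 ((ZMod.intCast_zmod_eq_zero_iff_dvd d p).2 h5), ?_⟩
  have hpodd : (p : ℤ) % 2 = 1 := by
    have := hp.eq_two_or_odd
    omega
  obtain ⟨x, hx1, hx2⟩ : ∃ x : ℤ, (x : ZMod p) = y ∧ (x - d) % 2 = 0 := by
    rcases Int.emod_two_eq_zero_or_one (y - d) with h5 | h5
    · exact ⟨y, rfl, h5⟩
    · refine ⟨y + p, by simp, ?_⟩
      omega
  refine ⟨x, ?_⟩
  have h6 : (p : ℤ) ∣ x ^ 2 - d := by
    rw [← ZMod.intCast_zmod_eq_zero_iff_dvd]
    push_cast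
    rw [hx1, hy2, sub_self]
  have h7 : (4 : ℤ) ∣ x ^ 2 - d := by
    rcases fund_mod hd with h8 | h8
    · have h9 : x % 2 = 1 := by omega
      obtain ⟨a, ha⟩ : ∃ a, x = 2 * a + 1 := ⟨x / 2, by omega⟩
      obtain ⟨e, he⟩ : ∃ e, d = 4 * e + 1 := ⟨d / 4, by omega⟩
      exact ⟨a ^ 2 + a - e, by rw [ha, he]; ring⟩
    · have h9 : x % 2 = 0 := by omega
      obtain ⟨a, ha⟩ : ∃ a, x = 2 * a := ⟨x / 2, by omega⟩
      obtain ⟨e, he⟩ : ∃ e, d = 4 * e := ⟨d / 4, by omega⟩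
      exact ⟨a ^ 2 - e, by rw [ha, he]; ring⟩
  have hcop : IsCoprime (4 : ℤ) (p : ℤ) := by
    have h8 : Nat.Coprime 4 p := by
      have h9 : Nat.Coprime 2 p := (Nat.coprime_primes Nat.prime_two hp).2 (Ne.symm hp2)
      exact Nat.Coprime.mul_left h9 h9
    exact_mod_cast Nat.isCoprime_iff_coprime.2 h8
  exact hcop.mul_dvd h7 h6

/-- the primes with `(n / p) = -1` do not split -/
lemma not_splits {p : ℕ} (hp : p.Prime) (hp2 : p ≠ 2) {n d m : ℤ} (h : 4 * n = d * m ^ 2) (hJ : jacobiSym n p = -1) :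
    ¬ ∃ x : ℤ, (4 * (p : ℤ)) ∣ x ^ 2 - d := by
  haveI : Fact p.Prime := ⟨hp⟩
  rw [← jacobiSym.legendreSym.to_jacobiSym] at hJ
  rintro ⟨x, hx⟩
  apply (legendreSym.eq_neg_one_iff p).1 hJ
  have h2 : (2 : ZMod p) ≠ 0 := by
    intro h0
    have h1 : ((2 : ℕ) : ZMod p) = 0 := by exact_mod_cast h0
    rw [ZMod.natCast_eq_zero_iff] at h1
    exact hp2 ((Nat.prime_dvd_prime_iff_eq hp Nat.prime_two).1 h1)
  have h3 : (4 : ZMod p) * n = d * (m : ZMod p) ^ 2 := by
    have := congrArg (fun z : ℤ => (z : ZMod p)) h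
    push_cast at this
    exact this
  have h5 : (x : ZMod p) ^ 2 = d := by
    have h6 := (ZMod.intCast_zmod_eq_zero_iff_dvd (x ^ 2 - d) p).2 ((Dvd.intro_left 4 rfl).trans hx)
    push_cast at h6
    exact sub_eq_zero.1 h6
  refine ⟨(x : ZMod p) * m / 2, ?_⟩
  have h4 : (4 : ZMod p) = 2 * 2 := by norm_num
  have h6 : (2 : ZMod p) * 2 * n = (x : ZMod p) ^ 2 * (m : ZMod p) ^ 2 := by rw [← h4, h3, h5]
  field_simp
  linear_combination h6

lemma lt_iff (t : ℝ) (ht : 1 ≤ t) (p : ℕ) : (p : ℝ) < t ↔ p ≤ ⌈t⌉₊ - 1 := by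
  have h1 : 1 ≤ ⌈t⌉₊ := by
    rw [Nat.one_le_ceil_iff]
    linarith
  rw [← Nat.lt_ceil]
  omega


/-- Let `b ≥ 2`, `L` and `η > 0` be fixed. Let `0 < δ ≤ 1 / 2`. There is `W` such that for `κ ≠ 0` and all sufficiently large `X`
the following holds for all `t₀`, `k`, all `w` which are dominated, up to the factor `k ^ t₀`, by the distribution of an
integer with `k` determinantal digits (`DetDigits b L η t₀ k w`) and all `c`.

Let `T j` be ANY sequence of pairwise disjoint sets of primes. The `w`-weight of the integers `v < b ^ k` for which `n = c + κ v`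
does not have the following property is at most `4 k ^ t₀ X ^ (- δ / 2)`: with the discriminant `d` of
`ℚ(√n)` (`4 n = d m²`), for ALL real `t ≥ X + 1` with `t ^ W ≤ b ^ k` and ALL `j` with `(j + 1) ^ 2 ≤ t ^ (δ / 2)`: the number
of the primes `p < t` in `T j` which split in the field with the discriminant `d` differs from half of the number of the
primes `p < t` in `T j` by at most `3 t ^ δ` times the square root of the number of the primes `p < 2 t` in `T j` (or of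
`1`). For `t = (log |d|)² (log log |d|)²` this is the question. -/
theorem result (b L : ℕ) (hb : 2 ≤ b) (η : ℝ) (hη0 : 0 < η) (δ : ℝ) (hδ : 0 < δ)
    (hδ1 : δ ≤ 1 / 2) : ∃ W : ℕ, 1 ≤ W ∧ ∀ κ : ℤ, κ ≠ 0 → ∃ X₀ : ℕ, ∀ X : ℕ, X₀ ≤ X →
    ∀ (t₀ k : ℕ) (w : ℕ → ℝ), DetDigits b L η t₀ k w → ∀ c : ℤ,
    ∀ T : ℕ → Set ℕ, (∀ p j j', p ∈ T j → p ∈ T j' → j = j') →
    AlmostD b k w κ c (2 * ((k : ℝ) ^ t₀ * (2 * (X : ℝ) ^ (-(δ / 2))))) (fun n => ∀ d m : ℤ, Fund d → m ≠ 0 → 4 * n = d * m ^ 2 →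
      ∀ t : ℝ, (X : ℝ) + 1 ≤ t → t ^ W ≤ (b : ℝ) ^ k → ∀ j : ℕ, ((j : ℝ) + 1) ^ 2 ≤ t ^ (δ / 2) →
      |(split (T j) d t : ℝ) - 1 / 2 * total (T j) t| ≤ 3 * √(max 1 (total (T j) (2 * t) : ℝ)) * t ^ δ) := by
  classical
  obtain ⟨W, hW, H⟩ := twist_det δ hδ hδ1 b L hb η hη0
  refine ⟨W, hW, fun κ hκ => ?_⟩
  obtain ⟨X₀, J⟩ := H κ hκ
  refine ⟨X₀ + 1, fun X hX t₀ k w hw c T hT => ?_⟩
  have h1 := J X (by omega) t₀ k w hw c T (fun _ => 1) (fun _ => Or.inl rfl) hT
  have h2 := J X (by omega) t₀ k w hw c T (fun _ => -1) (fun _ => Or.inr rfl) hT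
  have h3 := Mostly.and (fun i _ => det_nonneg hw i) h1 h2
  have e4 : 2 * ((k : ℝ) ^ t₀ * (2 * (X : ℝ) ^ (-(δ / 2)))) = (k : ℝ) ^ t₀ * (2 * (X : ℝ) ^ (-(δ / 2))) + (k : ℝ) ^ t₀ * (2 * (X : ℝ) ^ (-(δ / 2))) := by ring
  rw [e4]
  refine almostD_of h3 ?_
  intro n hn d m hd hm hdm t ht htW j hj
  have hX1 : (1 : ℝ) ≤ X := by exact_mod_cast (by omega : 1 ≤ X)
  have ht1 : (1 : ℝ) ≤ t := by linarith
  have ht0 : (0 : ℝ) < t := by linarith
  obtain ⟨x, hx⟩ : ∃ x, x = ⌈t⌉₊ - 1 := ⟨_, rfl⟩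
  have hc1 : 1 ≤ ⌈t⌉₊ := by
    rw [Nat.one_le_ceil_iff]
    linarith
  have hxt : (x : ℝ) < t := by
    rw [lt_iff t ht1, hx]
  have htx : t ≤ (x : ℝ) + 1 := by
    have h5 := Nat.le_ceil t
    have h6 : (⌈t⌉₊ : ℝ) = (x : ℝ) + 1 := by
      rw [hx]
      push_cast [Nat.cast_sub hc1]
      ring
    linarith
  have hXx : X ≤ x := by
    have h5 : (X : ℝ) ≤ x := by linarith
    exact_mod_cast h5
  have hxW : x ^ W ≤ b ^ k := by
    have h5 : (x : ℝ) ^ W ≤ (b : ℝ) ^ k := (pow_le_pow_left₀ (Nat.cast_nonneg _) hxt.le W).trans htW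
    exact_mod_cast h5
  have hx1 : (1 : ℝ) ≤ x := by
    have : (X : ℝ) ≤ x := by exact_mod_cast hXx
    linarith
  have hjx : (j : ℝ) ≤ (x : ℝ) ^ (δ / 2) := by
    have h5 : t ≤ 2 * x := by linarith
    have h6 : t ^ (δ / 2) ≤ 2 * (x : ℝ) ^ (δ / 2) := by
      calc t ^ (δ / 2) ≤ (2 * x) ^ (δ / 2) := Real.rpow_le_rpow ht0.le h5 (by linarith)
        _ = 2 ^ (δ / 2) * (x : ℝ) ^ (δ / 2) := Real.mul_rpow (by norm_num) (by linarith)
        _ ≤ 2 ^ (1 : ℝ) * (x : ℝ) ^ (δ / 2) := by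
            apply mul_le_mul_of_nonneg_right _ (by positivity)
            exact Real.rpow_le_rpow_of_exponent_le (by norm_num) (by linarith)
        _ = _ := by rw [Real.rpow_one]
    have h7 : (0 : ℝ) ≤ j := Nat.cast_nonneg _
    nlinarith
  have hA := (hn.1 x hXx hxW j hjx)
  have hB := (hn.2 x hXx hxW j hjx)
  obtain ⟨V, hV⟩ : ∃ V : ℝ, V = √(max 1 (((pri (2 * x)).filter (fun p => p ≠ 2 ∧ p ∈ T j)).card : ℝ)) * (x : ℝ) ^ δ := ⟨_, rfl⟩
  obtain ⟨A, hAd⟩ : ∃ A : Finset ℕ, A = (pri x).filter (fun p => p ≠ 2 ∧ p ∈ T j ∧ jacobiSym n p = 1) := ⟨_, rfl⟩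
  obtain ⟨B, hBd⟩ : ∃ B : Finset ℕ, B = (pri x).filter (fun p => p ≠ 2 ∧ p ∈ T j ∧ jacobiSym n p = -1) := ⟨_, rfl⟩
  obtain ⟨Q, hQ⟩ : ∃ Q : Finset ℕ, Q = (pri x).filter (fun p => p ≠ 2 ∧ p ∈ T j) := ⟨_, rfl⟩
  obtain ⟨Q', hQ'⟩ : ∃ Q' : Finset ℕ, Q' = (pri x).filter (fun p => p ∈ T j) := ⟨_, rfl⟩
  obtain ⟨S, hS⟩ : ∃ S : Finset ℕ, S = (pri x).filter (fun p => p ∈ T j ∧ ¬ ((p : ℤ) ∣ d) ∧ ∃ x : ℤ, (4 * (p : ℤ)) ∣ x ^ 2 - d) := ⟨_, rfl⟩
  have eS : split (T j) d t = S.card := by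
    unfold split
    rw [← Set.ncard_coe_finset]
    congr 1
    ext p
    rw [hS]
    simp only [Set.mem_setOf_eq, coe_filter, mem_pri]
    rw [lt_iff t ht1 p, ← hx]
    tauto
  have eM : total (T j) t = Q'.card := by
    unfold total
    rw [← Set.ncard_coe_finset]
    congr 1
    ext p
    rw [hQ']
    simp only [Set.mem_setOf_eq, coe_filter, mem_pri]
    rw [lt_iff t ht1 p, ← hx]
    tauto
  have hVt : V ≤ √(max 1 (total (T j) (2 * t) : ℝ)) * t ^ δ := by
    rw [hV]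
    apply mul_le_mul _ (Real.rpow_le_rpow (by linarith) hxt.le hδ.le) (by positivity) (Real.sqrt_nonneg _)
    apply Real.sqrt_le_sqrt
    apply max_le_max le_rfl
    have h5 : ((pri (2 * x)).filter (fun p => p ≠ 2 ∧ p ∈ T j)).card ≤ total (T j) (2 * t) := by
      unfold total
      rw [← Set.ncard_coe_finset]
      apply Set.ncard_le_ncard
      · intro p hp
        rw [coe_filter, Set.mem_setOf_eq, mem_pri] at hp
        refine ⟨hp.1.2, hp.2.2, ?_⟩
        have h6 : (p : ℝ) ≤ 2 * x := by exact_mod_cast hp.1.1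
        linarith
      · apply Set.Finite.subset (Set.finite_Iio (⌈2 * t⌉₊))
        intro p hp
        exact Nat.lt_ceil.2 hp.2.2
    exact_mod_cast h5
  have hV1 : 1 ≤ V := by
    rw [hV]
    apply one_le_mul_of_one_le_of_one_le
    · rw [Real.one_le_sqrt]
      exact le_max_left _ _
    · exact Real.one_le_rpow hx1 hδ.le
  have hAS : A.card ≤ S.card := by
    apply card_le_card
    intro p hp
    rw [hAd, mem_filter] at hp
    rw [hS, mem_filter]
    exact ⟨hp.1, hp.2.2.1, splits (mem_pri.1 hp.1).2 hp.2.1 hd hdm hp.2.2.2⟩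
  have hSB : S.card + B.card ≤ Q'.card := by
    have hdis : Disjoint S B := by
      rw [disjoint_left]
      intro p hp hp'
      rw [hS, mem_filter] at hp
      rw [hBd, mem_filter] at hp'
      exact not_splits (mem_pri.1 hp.1).2 hp'.2.1 hdm hp'.2.2.2 hp.2.2.2
    rw [← card_union_of_disjoint hdis]
    apply card_le_card
    intro p hp
    rw [mem_union, hS, hBd, mem_filter, mem_filter] at hp
    rw [hQ', mem_filter]
    rcases hp with hp | hp
    · exact ⟨hp.1, hp.2.1⟩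
    · exact ⟨hp.1, hp.2.2.1⟩
  have hMM : Q'.card ≤ Q.card + 1 := by
    have h5 : Q' ⊆ Q ∪ {2} := by
      intro p hp
      rw [hQ', mem_filter] at hp
      rw [mem_union, hQ, mem_filter, mem_singleton]
      by_cases h6 : p = 2
      · exact Or.inr h6
      · exact Or.inl ⟨hp.1, h6, hp.2⟩
    refine (card_le_card h5).trans ((card_union_le _ _).trans ?_)
    rw [card_singleton]
  have hMM2 : Q.card ≤ Q'.card := by
    apply card_le_card
    intro p hp
    rw [hQ, mem_filter] at hp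
    rw [hQ', mem_filter]
    exact ⟨hp.1, hp.2.2⟩
  have r1 : (A.card : ℝ) ≤ S.card := by exact_mod_cast hAS
  have r2 : (S.card : ℝ) + B.card ≤ Q'.card := by exact_mod_cast hSB
  have r3 : (Q'.card : ℝ) ≤ Q.card + 1 := by exact_mod_cast hMM
  have r4 : (Q.card : ℝ) ≤ Q'.card := by exact_mod_cast hMM2
  have hA' : |(A.card : ℝ) - 1 / 2 * Q.card| ≤ 2 * V := by
    rw [hAd, hQ, hV, ← mul_assoc]
    exact hA
  have hB' : |(B.card : ℝ) - 1 / 2 * Q.card| ≤ 2 * V := by
    rw [hBd, hQ, hV, ← mul_assoc]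
    exact hB
  rw [eS, eM, mul_assoc]
  rw [abs_le] at hA' hB' ⊢
  constructor <;> linarith [hA'.1, hA'.2, hB'.1, hB'.2]

end Pool.Agent.Results.MP_aaa0df_nt.DeterminantalFields
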