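import Pool.Agent.Run7.h582.FM.Em3
import Pool.Agent.R459.Bsd2
import Pool.Agent.R459.Eq4
import Pool.Agent.Results.MP_aaa0df_nt.NonIntegralOrderFields

/-!
# The small split primes in ALL the quadratic fields given by the integers in intervals around `lam n * x + c n`, for almost
every `x` with respect to every measure with polynomial Fourier decay

Let `N n ≥ exp (n ^ η)` and let `lam n`, `c n` be real numbers with `N n / log ^ T (N n) ≤ lam n ≤ B N n` and
`|c n| ≤ B N n`. The theorem is about ALL the integers `q` in the interval with the centre `lam n * x + c n` and the length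
`2 (N n) ^ θ`, for all large `n`, for almost every `x` with respect to EVERY finite Borel measure `μ` with bounded support whose
Fourier transform is `O (|ξ| ^ (-δ))` for some `δ > 0` (such measures can live on sets of an arbitrarily small positive
Hausdorff dimension).

Method: a measure with polynomial Fourier decay is replaced by finite families of real numbers with the same exponential
sums (`Pool.Agent.Run7.h582.FM`); high moments of sums over consecutive primes of functions of the residues of the integer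
parts (the estimates of helper384, `Pool.Agent.N384.MQ`, and the starting files `Pool.Agent.TH869.SQ`), and the lemma of Borel
and Cantelli. The definitions of the counts are those of the starting hand-in `NonIntegralOrderFields` of this problem.
-/

set_option autoImplicit false
set_option maxHeartbeats 4000000

namespace Pool.Agent.Results.MP_aaa0df_nt.FourierDecayFields

open Finset Filter MeasureTheory
open Pool.Agent.Results.MP_aaa0df_nt.NonIntegralOrderFields (Fund split total splits not_splits)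
open Pool.Agent.TH869.SQ (ind ind1 mean pr)

/-- `N n ≥ exp (n ^ η)`, `|c n| ≤ B N n` and `N n / log ^ T (N n) ≤ lam n ≤ B N n` for large `n`. -/
def Scales (η : ℝ) (B T : ℕ) (N : ℕ → ℕ) (lam c : ℕ → ℝ) : Prop :=
  ∀ᶠ n : ℕ in atTop, Real.exp ((n : ℝ) ^ η) ≤ N n ∧ |c n| ≤ B * N n ∧ lam n ≤ B * N n ∧
    (N n : ℝ) ≤ lam n * Real.log (N n) ^ T

/-- `μ` is a finite Borel measure with bounded support and its Fourier transform `ξ ↦ ∫ exp (i ξ t) dμ (t)` is
`O (|ξ| ^ (-δ))` for some `δ > 0`. -/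
def FourierDecay (μ : Measure ℝ) : Prop :=
  IsFiniteMeasure μ ∧ (∃ R : ℝ, μ (Set.Icc (-R) R)ᶜ = 0) ∧ ∃ C δ : ℝ, 0 < δ ∧ ∀ ξ : ℝ, ξ ≠ 0 →
    ‖∫ t : ℝ, Complex.exp (((ξ * t : ℝ) : ℂ) * Complex.I) ∂μ‖ ≤ C * |ξ| ^ (-δ)

lemma pr_prime (k : ℕ) : (pr k).Prime := Nat.prime_nth_prime k

lemma pr_inj : Function.Injective pr := Nat.nth_injective Nat.infinite_setOf_prime

open Classical in
/-- the primes `p < t` as the first primes -/
lemma ncard_pr (P : ℕ → Prop) (t : ℝ) : Set.ncard {p : ℕ | p.Prime ∧ (p : ℝ) < t ∧ P p} =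
    ((range (Nat.count Nat.Prime ⌈t⌉₊)).filter (fun k => P (pr k))).card := by
  have h1 : {p : ℕ | p.Prime ∧ (p : ℝ) < t ∧ P p} =
      (((range (Nat.count Nat.Prime ⌈t⌉₊)).filter (fun k => P (pr k))).image pr : Finset ℕ) := by
    ext p
    simp only [Set.mem_setOf_eq, coe_image, Set.mem_image, coe_filter, mem_range]
    constructor
    · rintro ⟨h2, h3, h4⟩
      have h5 : p < ⌈t⌉₊ := Nat.lt_ceil.2 h3
      have h6 : pr (Nat.count Nat.Prime p) = p := Nat.nth_count h2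
      refine ⟨Nat.count Nat.Prime p, ⟨Nat.count_strict_mono h2 h5, ?_⟩, h6⟩
      rw [h6]
      exact h4
    · rintro ⟨k, ⟨h2, h3⟩, rfl⟩
      exact ⟨pr_prime k, Nat.lt_ceil.1 (Nat.nth_lt_of_lt_count h2), h3⟩
  rw [h1, Set.ncard_coe_finset, card_image_of_injective _ pr_inj]

/-- the Legendre symbol of `m q` modulo the primes of the set `T` -/
noncomputable def sym (T : Set ℕ) (m : ℤ) (p : ℕ) (q : ℤ) : ℝ := by
  classical
  exact if p ∈ T ∧ p ≠ 2 then (jacobiSym (m * q) p : ℝ) else 0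

lemma sym_per (T : Set ℕ) (m : ℤ) (p : ℕ) (q : ℤ) : sym T m p (q + p) = sym T m p q := by
  classical
  unfold sym
  split_ifs
  · rw [jacobiSym.mod_left (m * (q + p)), jacobiSym.mod_left (m * q)]
    congr 2
    rw [mul_add]
    simp
  · rfl

lemma leg_cases {p : ℕ} (hp : p.Prime) (a : ℤ) : jacobiSym a p = 0 ∨ jacobiSym a p = 1 ∨ jacobiSym a p = -1 :=
  jacobiSym.trichotomy a p

/-- the two signs have the same mean -/
lemma mean_eq (T : Set ℕ) (m : ℤ) (p : ℕ) (hp : p.Prime) :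
    mean p (fun t => ind1 {1} (sym T m p (t : ℤ))) = mean p (fun t => ind1 {-1} (sym T m p (t : ℤ))) := by
  classical
  haveI : Fact p.Prime := ⟨hp⟩
  by_cases h : p ∈ T ∧ p ≠ 2
  · have e : ∀ t : ℕ, ind1 {1} (sym T m p (t : ℤ)) - ind1 {-1} (sym T m p (t : ℤ)) = (jacobiSym (m * t) p : ℝ) := by
      intro t
      have : sym T m p (t : ℤ) = (jacobiSym (m * t) p : ℝ) := by
        unfold sym
        rw [if_pos h]
      rw [this]
      unfold ind1
      rcases leg_cases hp (m * t) with h1 | h1 | h1 <;> rw [h1] <;> norm_num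
    have h2 : ∑ t ∈ range p, (ind1 {1} (sym T m p (t : ℤ)) - ind1 {-1} (sym T m p (t : ℤ))) = 0 := by
      rw [sum_congr rfl fun t _ => e t]
      have h3 : ∀ t : ℕ, (jacobiSym (m * t) p : ℝ) = (jacobiSym m p : ℝ) * Pool.Agent.R459.Bsd.ch p (((t : ℕ) : ℤ) : ZMod p) := by
        intro t
        rw [jacobiSym.mul_left]
        push_cast
        congr 1
        rw [← jacobiSym.legendreSym.to_jacobiSym]
        unfold legendreSym Pool.Agent.R459.Bsd.ch
        push_cast
        rfl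
      rw [sum_congr rfl fun t _ => h3 t, ← mul_sum]
      have h4 := Pool.Agent.R459.Bsd.sum_zmod (p := p) (fun z => Pool.Agent.R459.Bsd.ch p z)
      have h5 := Pool.Agent.R459.Bsd.ch_sum (p := p) h.2
      rw [h4, h5, mul_zero]
    rw [sum_sub_distrib, sub_eq_zero] at h2
    unfold mean
    rw [h2]
  · have : ∀ t : ℕ, sym T m p (t : ℤ) = 0 := by
      intro t
      unfold sym
      rw [if_neg h]
    unfold mean
    congr 1
    apply sum_congr rfl
    intro t _
    show ind1 {1} (sym T m p (t : ℤ)) = ind1 {-1} (sym T m p (t : ℤ))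
    rw [this t]
    unfold ind1
    norm_num

/-- the number of the primes dividing `m` -/
lemma card_dvd (m : ℤ) (hm : m ≠ 0) (R : Finset ℕ) : ((R.filter fun k => (pr k : ℤ) ∣ m).card : ℝ) ≤ 2 * Real.log |(m : ℝ)| := by
  have h1 : (R.filter fun k => (pr k : ℤ) ∣ m).card ≤ (m.natAbs.primeFactors).card := by
    rw [← card_image_of_injective _ pr_inj]
    apply card_le_card
    intro p hp
    rw [mem_image] at hp
    obtain ⟨k, hk, rfl⟩ := hp
    rw [mem_filter] at hk
    rw [Nat.mem_primeFactors]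
    exact ⟨pr_prime k, Int.natCast_dvd.1 hk.2, Int.natAbs_ne_zero.2 hm⟩
  have h2 : 2 ^ (m.natAbs.primeFactors).card ≤ m.natAbs := by
    calc 2 ^ (m.natAbs.primeFactors).card ≤ ∏ p ∈ m.natAbs.primeFactors, p := by
          apply pow_card_le_prod
          intro p hp
          exact (Nat.prime_of_mem_primeFactors hp).two_le
      _ ≤ m.natAbs := Nat.le_of_dvd (Int.natAbs_pos.2 hm) (Nat.prod_primeFactors_dvd _)
  have h3 : (2 : ℝ) ^ (m.natAbs.primeFactors).card ≤ |(m : ℝ)| := by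
    have : ((2 ^ (m.natAbs.primeFactors).card : ℕ) : ℝ) ≤ (m.natAbs : ℝ) := by exact_mod_cast h2
    rw [Nat.cast_natAbs] at this
    push_cast at this
    exact this
  have h4 : Real.log (2 ^ (m.natAbs.primeFactors).card) ≤ Real.log |(m : ℝ)| := Real.log_le_log (by positivity) h3
  rw [Real.log_pow] at h4
  have h5 := Real.log_two_gt_d9
  have h6 : ((R.filter fun k => (pr k : ℤ) ∣ m).card : ℝ) ≤ (m.natAbs.primeFactors).card := by exact_mod_cast h1
  have h7 : (0 : ℝ) ≤ ((m.natAbs.primeFactors).card : ℝ) := Nat.cast_nonneg _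
  nlinarith

/-- the counting -/
lemma core (T : Set ℕ) (m q : ℤ) (d k : ℤ) (hd : Fund d) (hk : k ≠ 0) (h : 4 * (m * q) = d * k ^ 2) (t E : ℝ)
    (hE : ∀ s : ℝ, s = 1 ∨ s = -1 → |∑ i ∈ range (Nat.count Nat.Prime ⌈t⌉₊), (ind1 {s} (sym T m (pr i) q) -
      mean (pr i) (fun t => ind1 {s} (sym T m (pr i) (t : ℤ))))| ≤ E) :
    |(split T d t : ℝ) - 1 / 2 * total T t| ≤ E + 1 + Real.log |((m * q : ℤ) : ℝ)| := by
  classical
  obtain ⟨R, hR⟩ : ∃ R, R = range (Nat.count Nat.Prime ⌈t⌉₊) := ⟨_, rfl⟩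
  rw [← hR] at hE
  have hd0 : d ≠ 0 := by
    rintro rfl
    rcases hd with ⟨h1, _⟩ | ⟨a, h1, h2, _⟩ <;> omega
  have hmq : m * q ≠ 0 := by
    intro h0
    rw [h0, mul_zero] at h
    have : d * k ^ 2 ≠ 0 := mul_ne_zero hd0 (pow_ne_zero 2 hk)
    exact this h.symm
  have eS : split T d t = (R.filter fun i => pr i ∈ T ∧ ¬ (((pr i : ℕ) : ℤ) ∣ d) ∧ ∃ x : ℤ, (4 * ((pr i : ℕ) : ℤ)) ∣ x ^ 2 - d).card := by
    rw [hR]
    refine Eq.trans ?_ ((ncard_pr (fun p => p ∈ T ∧ ¬ ((p : ℤ) ∣ d) ∧ ∃ x : ℤ, (4 * (p : ℤ)) ∣ x ^ 2 - d) t).trans ?_)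
    · unfold split
      congr 1
      ext p
      simp only [Set.mem_setOf_eq]
      tauto
    · congr!
  have eT : total T t = (R.filter fun i => pr i ∈ T).card := by
    rw [hR]
    refine Eq.trans ?_ ((ncard_pr (fun p => p ∈ T) t).trans ?_)
    · unfold total
      congr 1
      ext p
      simp only [Set.mem_setOf_eq]
      tauto
    · congr!
  have hs : ∀ s : ℝ, ∑ i ∈ R, ind1 {s} (sym T m (pr i) q) = ((R.filter fun i => sym T m (pr i) q = s).card : ℝ) := by
    intro s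
    rw [card_filter, Nat.cast_sum]
    apply sum_congr rfl
    intro i _
    unfold ind1
    by_cases h : sym T m (pr i) q = s
    · rw [if_pos (by rw [Set.mem_singleton_iff]; exact h), if_pos h, Nat.cast_one]
    · rw [if_neg (by rw [Set.mem_singleton_iff]; exact h), if_neg h, Nat.cast_zero]
  have h1 := hE 1 (Or.inl rfl)
  have h2 := hE (-1) (Or.inr rfl)
  rw [sum_sub_distrib, hs] at h1 h2
  rw [sum_congr rfl fun i _ => mean_eq T m (pr i) (pr_prime i)] at h1
  obtain ⟨a, ha⟩ : ∃ a : ℕ, a = (R.filter fun i => sym T m (pr i) q = 1).card := ⟨_, rfl⟩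
  obtain ⟨b, hb⟩ : ∃ b : ℕ, b = (R.filter fun i => sym T m (pr i) q = -1).card := ⟨_, rfl⟩
  obtain ⟨z, hz⟩ : ∃ z : ℕ, z = (R.filter fun i => (pr i : ℤ) ∣ m * q).card := ⟨_, rfl⟩
  rw [← ha] at h1
  rw [← hb] at h2
  have hz1 : (z : ℝ) ≤ 2 * Real.log |((m * q : ℤ) : ℝ)| := by
    rw [hz]
    exact card_dvd (m * q) hmq R
  have q1 : a ≤ split T d t := by
    rw [ha, eS]
    apply card_le_card
    intro i hi
    rw [mem_filter] at hi ⊢
    unfold sym at hi
    split_ifs at hi with h5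
    · exact ⟨hi.1, h5.1, splits (pr_prime i) h5.2 hd h (by exact_mod_cast hi.2)⟩
    · exact absurd hi.2 (by norm_num)
  have q2 : split T d t + b ≤ total T t := by
    rw [hb, eS, eT]
    rw [← card_union_of_disjoint]
    · apply card_le_card
      intro i hi
      rw [mem_union, mem_filter, mem_filter] at hi
      rw [mem_filter]
      rcases hi with hi | hi
      · exact ⟨hi.1, hi.2.1⟩
      · unfold sym at hi
        split_ifs at hi with h5
        · exact ⟨hi.1, h5.1⟩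
        · exact absurd hi.2 (by norm_num)
    · rw [disjoint_left]
      intro i hi hi'
      rw [mem_filter] at hi hi'
      unfold sym at hi'
      split_ifs at hi' with h5
      · exact not_splits (pr_prime i) h5.2 h (by exact_mod_cast hi'.2) hi.2.2.2
      · exact absurd hi'.2 (by norm_num)
  have q3 : total T t ≤ a + b + (1 + z) := by
    have h6 : (R.filter fun i => pr i ∈ T) ⊆ ((R.filter fun i => sym T m (pr i) q = 1) ∪
        (R.filter fun i => sym T m (pr i) q = -1)) ∪ ((R.filter fun i => pr i = 2) ∪ (R.filter fun i => (pr i : ℤ) ∣ m * q)) := by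
      intro i hi
      rw [mem_filter] at hi
      rw [mem_union, mem_union, mem_union, mem_filter, mem_filter, mem_filter, mem_filter]
      by_cases h7 : pr i = 2
      · exact Or.inr (Or.inl ⟨hi.1, h7⟩)
      · have h8 : sym T m (pr i) q = (jacobiSym (m * q) (pr i) : ℝ) := by
          unfold sym
          rw [if_pos ⟨hi.2, h7⟩]
        rw [h8]
        rcases leg_cases (pr_prime i) (m * q) with h9 | h9 | h9
        · right
          right
          refine ⟨hi.1, ?_⟩
          haveI : Fact (pr i).Prime := ⟨pr_prime i⟩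
          rw [← jacobiSym.legendreSym.to_jacobiSym, legendreSym.eq_zero_iff] at h9
          exact (ZMod.intCast_zmod_eq_zero_iff_dvd _ _).1 h9
        · left; left
          exact ⟨hi.1, by rw [h9]; norm_num⟩
        · left; right
          exact ⟨hi.1, by rw [h9]; norm_num⟩
    have h7 : (R.filter fun i => pr i = 2).card ≤ 1 := by
      rw [card_le_one]
      intro i hi j hj
      rw [mem_filter] at hi hj
      exact pr_inj (hi.2.trans hj.2.symm)
    rw [eT]
    refine (card_le_card h6).trans ((card_union_le _ _).trans ?_)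
    rw [ha, hb, hz]
    exact Nat.add_le_add (card_union_le _ _) ((card_union_le _ _).trans (by omega))
  have r1 : (a : ℝ) ≤ split T d t := by exact_mod_cast q1
  have r2 : (split T d t : ℝ) + b ≤ total T t := by exact_mod_cast q2
  have r3 : (total T t : ℝ) ≤ a + b + (1 + z) := by exact_mod_cast q3
  rw [abs_le] at h1 h2 ⊢
  constructor <;> linarith [h1.1, h1.2, h2.1, h2.2]

lemma total_le (T : Set ℕ) (t : ℝ) (ht : 0 ≤ t) : (total T t : ℝ) ≤ t + 1 := by
  classical
  have e : total T t ≤ Nat.count Nat.Prime ⌈t⌉₊ := by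
    have : total T t = ((range (Nat.count Nat.Prime ⌈t⌉₊)).filter (fun k => pr k ∈ T)).card := by
      rw [← ncard_pr (fun p => p ∈ T) t]
      unfold total
      congr 1
      ext p
      simp only [Set.mem_setOf_eq]
      tauto
    rw [this]
    refine (card_filter_le _ _).trans ?_
    rw [card_range]
  have h1 : Nat.count Nat.Prime ⌈t⌉₊ ≤ ⌈t⌉₊ := Nat.count_le _
  have h2 : (⌈t⌉₊ : ℝ) ≤ t + 1 := (Nat.ceil_lt_add_one ht).le
  have h3 : (total T t : ℝ) ≤ (⌈t⌉₊ : ℝ) := by exact_mod_cast e.trans h1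
  linarith

lemma split_le (T : Set ℕ) (d : ℤ) (t : ℝ) : split T d t ≤ total T t := by
  unfold split total
  apply Set.ncard_le_ncard
  · intro p hp
    exact ⟨hp.1, hp.2.1, hp.2.2.1⟩
  · apply Set.Finite.subset (Set.finite_Iio (⌈t⌉₊))
    intro p hp
    exact Nat.lt_ceil.2 hp.2.2

lemma grow (C : ℝ) (M : ℕ) : ∀ᶠ t : ℝ in atTop, M + C * t ^ (7 / 8 : ℝ) ≤ t / (16 * Real.log t) := by
  filter_upwards [Pool.Agent.Run7.h582.FM.log_le_rpow_ev 1 (1 / 16) (by norm_num), eventually_ge_atTop (3 : ℝ),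
    (tendsto_rpow_atTop (show (0 : ℝ) < 1 / 16 by norm_num)).eventually_ge_atTop (16 * (|C| + M))] with t h1 h2 h3
  rw [pow_one] at h1
  have ht0 : 0 < t := by linarith
  have hl : 0 < Real.log t := Real.log_pos (by linarith)
  have h4 : 1 ≤ t ^ (7 / 8 : ℝ) := Real.one_le_rpow (by linarith) (by norm_num)
  have h5 : t ^ (7 / 8 : ℝ) * (t ^ (1 / 16 : ℝ) * t ^ (1 / 16 : ℝ)) = t := by
    rw [← Real.rpow_add ht0, ← Real.rpow_add ht0]
    norm_num
  rw [le_div_iff₀ (by positivity)]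
  have h6 : (M : ℝ) + C * t ^ (7 / 8 : ℝ) ≤ (|C| + M) * t ^ (7 / 8 : ℝ) := by
    have h7 : C * t ^ (7 / 8 : ℝ) ≤ |C| * t ^ (7 / 8 : ℝ) := mul_le_mul_of_nonneg_right (le_abs_self C) (by positivity)
    have h8 : (M : ℝ) * 1 ≤ M * t ^ (7 / 8 : ℝ) := mul_le_mul_of_nonneg_left h4 (Nat.cast_nonneg _)
    linarith
  have h9 : 0 ≤ |C| + (M : ℝ) := by positivity
  calc ((M : ℝ) + C * t ^ (7 / 8 : ℝ)) * (16 * Real.log t) ≤ ((|C| + M) * t ^ (7 / 8 : ℝ)) * (16 * t ^ (1 / 16 : ℝ)) := by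
        apply mul_le_mul h6 _ (by positivity) (by positivity)
        linarith
    _ = t ^ (7 / 8 : ℝ) * ((16 * (|C| + M)) * t ^ (1 / 16 : ℝ)) := by ring
    _ ≤ t ^ (7 / 8 : ℝ) * (t ^ (1 / 16 : ℝ) * t ^ (1 / 16 : ℝ)) := by
        apply mul_le_mul_of_nonneg_left _ (by positivity)
        exact mul_le_mul_of_nonneg_right h3 (by positivity)
    _ = t := h5

/-- a lower bound for the number of primes -/
lemma total_univ (t : ℝ) (ht : 5 ≤ t) : t / (8 * Real.log t) ≤ (total Set.univ t : ℝ) := by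
  classical
  have e : total Set.univ t = Nat.primeCounting (⌈t⌉₊ - 1) := by
    have h1 : total Set.univ t = ((range (Nat.count Nat.Prime ⌈t⌉₊)).filter (fun k => pr k ∈ (Set.univ : Set ℕ))).card := by
      refine Eq.trans ?_ ((ncard_pr (fun p => p ∈ (Set.univ : Set ℕ)) t).trans ?_)
      · unfold total
        congr 1
        ext p
        simp only [Set.mem_setOf_eq]
        tauto
      · congr!
    rw [h1]
    simp only [Set.mem_univ, filter_true, card_range]
    rw [Nat.primeCounting, Nat.primeCounting']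
    congr 1
    have : 1 ≤ ⌈t⌉₊ := by
      rw [Nat.one_le_ceil_iff]
      linarith
    omega
  have h1 : 5 ≤ ⌈t⌉₊ := by
    have h2 := Nat.le_ceil t
    have : (5 : ℝ) ≤ ⌈t⌉₊ := ht.trans h2
    exact_mod_cast this
  have h2 : ((⌈t⌉₊ - 1 : ℕ) : ℝ) < t := by
    rw [Nat.cast_sub (by omega)]
    have := Nat.ceil_lt_add_one (show 0 ≤ t by linarith)
    push_cast
    linarith
  have h3 : t / 2 ≤ ((⌈t⌉₊ - 1 : ℕ) : ℝ) := by
    rw [Nat.cast_sub (by omega)]
    have := Nat.le_ceil t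
    push_cast
    linarith
  obtain ⟨h4, _, h5⟩ := Pool.Agent.R459.Eq.pi_lower' (⌈t⌉₊ - 1) (by omega)
  rw [e]
  have hx0 : (0 : ℝ) < ((⌈t⌉₊ - 1 : ℕ) : ℝ) := by linarith
  rw [div_le_div_iff₀ h4 hx0, one_mul] at h5
  have hl : 0 < Real.log t := Real.log_pos (by linarith)
  have h6 : Real.log ((⌈t⌉₊ - 1 : ℕ) : ℝ) ≤ Real.log t := Real.log_le_log hx0 h2.le
  rw [div_le_iff₀ (by positivity)]
  nlinarith

/-- Let `μ` be a measure with `FourierDecay`.

**(1)** For every `δ > 0` there are `θ > 0` and `C` such that for all sequences with `Scales η B T N lam c`, all lists of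
`L n ≤ (N n) ^ θ` integers `j n l` with `|j n l| ≤ N n` and ARBITRARY sets `S n l` of primes, and `μ`-almost every `x`, for all
large `n`: for ALL the integers `q` at a distance of at most `(N n) ^ θ` from `lam n * x + c n`, ALL `l < L n`, the discriminant
`d` of the field `ℚ(√(j q))`, `j = j n l` (`4 j q = d k²`, `k ≠ 0`) and ALL `1 ≤ t ≤ (N n) ^ θ`, the number of the primes `p < t`
in `S n l` which split in the field differs from half of the number of the primes `p < t` in `S n l` by at most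
`C t ^ (1 / 2 + δ) √(log (N n))`. (This is an asymptotic formula from `t = (log N n) ^ (1 + 4 δ)` on, for example
for the set of all primes.)

**(2)** There is `θ > 0` such that the assertion of Q1 holds for these fields: under the same assumptions on `N`, `lam`, `c`, `L`,
`j`, for `μ`-almost every `x`, all `ε > 0` and all `M`, for all large `n`: for ALL the integers `q` at a distance of at most
`(N n) ^ θ` from `lam n * x + c n`, ALL `l < L n` and the discriminant `d` of `ℚ(√(j q))`, if `|d| ≥ (N n) ^ ε` then at least `M`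
primes `p < (log |d|)² (log log |d|)²` split in the field. -/
theorem result (μ : Measure ℝ) (hμ : FourierDecay μ) :
    (∀ δ : ℝ, 0 < δ → ∃ θ C : ℝ, 0 < θ ∧ ∀ η : ℝ, 0 < η → ∀ (B T : ℕ) (N : ℕ → ℕ) (lam c : ℕ → ℝ), Scales η B T N lam c →
      ∀ (L : ℕ → ℕ) (j : ℕ → ℕ → ℤ) (S : ℕ → ℕ → Set ℕ),
      (∀ᶠ n : ℕ in atTop, (L n : ℝ) ≤ (N n : ℝ) ^ θ ∧ ∀ l < L n, |(j n l : ℝ)| ≤ N n) →
      ∀ᵐ x ∂μ, ∀ᶠ n : ℕ in atTop, ∀ q : ℤ, |(q : ℝ) - (lam n * x + c n)| ≤ (N n : ℝ) ^ θ → ∀ l < L n,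
        ∀ d k : ℤ, Fund d → k ≠ 0 → 4 * (j n l * q) = d * k ^ 2 → ∀ t : ℝ, 1 ≤ t → t ≤ (N n : ℝ) ^ θ →
        |(split (S n l) d t : ℝ) - 1 / 2 * total (S n l) t| ≤ C * (t ^ (1 / 2 + δ) * √(Real.log (N n)))) ∧
    (∃ θ : ℝ, 0 < θ ∧ ∀ η : ℝ, 0 < η → ∀ (B T : ℕ) (N : ℕ → ℕ) (lam c : ℕ → ℝ), Scales η B T N lam c →
      ∀ (L : ℕ → ℕ) (j : ℕ → ℕ → ℤ),
      (∀ᶠ n : ℕ in atTop, (L n : ℝ) ≤ (N n : ℝ) ^ θ ∧ ∀ l < L n, |(j n l : ℝ)| ≤ N n) →
      ∀ᵐ x ∂μ, ∀ ε : ℝ, 0 < ε → ∀ M : ℕ, ∀ᶠ n : ℕ in atTop, ∀ q : ℤ, |(q : ℝ) - (lam n * x + c n)| ≤ (N n : ℝ) ^ θ →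
        ∀ l < L n, ∀ d k : ℤ, Fund d → k ≠ 0 → 4 * (j n l * q) = d * k ^ 2 → (N n : ℝ) ^ ε ≤ |(d : ℝ)| →
        M ≤ split Set.univ d (Real.log |(d : ℝ)| ^ 2 * Real.log (Real.log |(d : ℝ)|) ^ 2)) := by
  classical
  have part1 : ∀ δ : ℝ, 0 < δ → ∃ θ C : ℝ, 0 < θ ∧ θ ≤ 1 ∧ ∀ η : ℝ, 0 < η → ∀ (B T : ℕ) (N : ℕ → ℕ) (lam c : ℕ → ℝ),
      Scales η B T N lam c → ∀ (L : ℕ → ℕ) (j : ℕ → ℕ → ℤ) (S : ℕ → ℕ → Set ℕ),
      (∀ᶠ n : ℕ in atTop, (L n : ℝ) ≤ (N n : ℝ) ^ θ ∧ ∀ l < L n, |(j n l : ℝ)| ≤ N n) →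
      ∀ᵐ x ∂μ, ∀ᶠ n : ℕ in atTop, ∀ q : ℤ, |(q : ℝ) - (lam n * x + c n)| ≤ (N n : ℝ) ^ θ → ∀ l < L n,
        ∀ d k : ℤ, Fund d → k ≠ 0 → 4 * (j n l * q) = d * k ^ 2 → ∀ t : ℝ, 1 ≤ t → t ≤ (N n : ℝ) ^ θ →
        |(split (S n l) d t : ℝ) - 1 / 2 * total (S n l) t| ≤ C * (t ^ (1 / 2 + δ) * √(Real.log (N n))) := by
    intro δ hδ
    obtain ⟨θ, C, hθ, hθ1, hC, H⟩ := Pool.Agent.Run7.h582.FM.ae_consec μ hμ 1 le_rfl δ hδ
    refine ⟨θ / 2, C * (2 ^ (1 / 2 + δ) * 2) + 4, by positivity, by linarith, fun η hη B T N lam c hS L j S hL => ?_⟩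
    have hNr : Tendsto (fun n : ℕ => (N n : ℝ)) atTop atTop := by
      have h1 : Tendsto (fun n : ℕ => Real.exp ((n : ℝ) ^ η)) atTop atTop :=
        Real.tendsto_exp_atTop.comp ((tendsto_rpow_atTop hη).comp tendsto_natCast_atTop_atTop)
      exact tendsto_atTop_mono' _ (hS.mono fun n hn => hn.1) h1
    have key := H η hη B T N lam c hS L (fun n l p q => sym (S n l) (j n l) p q)
      (fun n l p q => sym_per (S n l) (j n l) p q) (by
        filter_upwards [hL, hNr.eventually_ge_atTop 1] with n hn hN1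
        exact hn.1.trans (Real.rpow_le_rpow_of_exponent_le hN1 (by linarith)))
    filter_upwards [key] with x hx
    filter_upwards [hx, hS, hL, hNr.eventually_ge_atTop 16, hNr.eventually_ge_atTop (B * |x| + B + 1),
      ((tendsto_rpow_atTop (show (0 : ℝ) < θ / 2 by positivity)).comp hNr).eventually_ge_atTop 2]
      with n hn hsc hLn hN16 hNB hN2 q hq l hl d k hd hk hdk t ht1 htN
    obtain ⟨_, hc, hlam, hNl⟩ := hsc
    have hN0 : (0 : ℝ) < N n := by linarith
    have hlog1 : 1 ≤ Real.log (N n) := by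
      rw [Real.le_log_iff_exp_le hN0]
      linarith [Real.exp_one_lt_d9]
    have hlog0 : 0 < Real.log (N n) := by linarith
    have hlam0 : 0 ≤ lam n := by
      by_contra hneg
      push Not at hneg
      have : lam n * Real.log (N n) ^ T ≤ 0 := mul_nonpos_of_nonpos_of_nonneg hneg.le (by positivity)
      linarith
    have hhalf : (N n : ℝ) ^ (θ / 2) * (N n : ℝ) ^ (θ / 2) = (N n : ℝ) ^ θ := by
      rw [← Real.rpow_add hN0]
      congr 1
      ring
    simp only [Function.comp] at hN2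
    have hpos2 : 0 < (N n : ℝ) ^ (θ / 2) := by positivity
    have hle2 : (N n : ℝ) ^ (θ / 2) ≤ (N n : ℝ) ^ θ := by nlinarith
    have hle1 : (N n : ℝ) ^ (θ / 2) ≤ N n := by
      calc (N n : ℝ) ^ (θ / 2) ≤ (N n : ℝ) ^ (1 : ℝ) := Real.rpow_le_rpow_of_exponent_le (by linarith) (by linarith)
        _ = N n := Real.rpow_one _
    have hK2 : ((Nat.count Nat.Prime ⌈t⌉₊ : ℕ) : ℝ) ≤ 2 * t := by
      have h1 : Nat.count Nat.Prime ⌈t⌉₊ ≤ ⌈t⌉₊ := Nat.count_le _
      have h2 : (⌈t⌉₊ : ℝ) ≤ t + 1 := (Nat.ceil_lt_add_one (by linarith)).le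
      have h3 : ((Nat.count Nat.Prime ⌈t⌉₊ : ℕ) : ℝ) ≤ (⌈t⌉₊ : ℝ) := by exact_mod_cast h1
      linarith
    have hKN : ((Nat.count Nat.Prime ⌈t⌉₊ : ℕ) : ℝ) ≤ (N n : ℝ) ^ θ := by
      rw [← hhalf]
      nlinarith
    have hE : ∀ s : ℝ, s = 1 ∨ s = -1 → |∑ i ∈ range (Nat.count Nat.Prime ⌈t⌉₊), (ind1 {s} (sym (S n l) (j n l) (pr i) q) -
        mean (pr i) (fun t => ind1 {s} (sym (S n l) (j n l) (pr i) (t : ℤ))))| ≤
        C * (((Nat.count Nat.Prime ⌈t⌉₊ : ℕ) : ℝ) ^ (1 / 2 + δ) * √(1 + Real.log (N n))) := by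
      intro s _
      have h1 := hn q (hq.trans hle2) ⟨l, hl⟩ (Nat.count Nat.Prime ⌈t⌉₊) hKN (fun _ => {s}) (fun _ => Set.ordConnected_singleton)
      refine le_trans (le_of_eq ?_) h1
      congr 1
      apply sum_congr rfl
      intro i _
      rw [Pool.Agent.TH869.SQ.ind_eq_prod]
      simp
    have h1 := core (S n l) (j n l) q d k hd hk hdk t _ hE
    have ht0 : 0 < t := by linarith
    have htd : 1 ≤ t ^ δ := Real.one_le_rpow ht1 hδ.le
    have htt : t ^ (1 / 2 + δ) = √t * t ^ δ := by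
      rw [Real.rpow_add ht0, Real.sqrt_eq_rpow]
    have hst : 1 ≤ √t := by
      rw [Real.one_le_sqrt]
      exact ht1
    have hsq : √t * √t = t := Real.mul_self_sqrt ht0.le
    have hsl : √(Real.log (N n)) * √(Real.log (N n)) = Real.log (N n) := Real.mul_self_sqrt hlog0.le
    have hsl0 : 0 < √(Real.log (N n)) := Real.sqrt_pos.2 hlog0
    have hst0 : 0 < √t := by linarith
    have hA0 : √t * √(Real.log (N n)) ≤ t ^ (1 / 2 + δ) * √(Real.log (N n)) := by
      apply mul_le_mul_of_nonneg_right _ hsl0.le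
      rw [htt]
      exact le_mul_of_one_le_right hst0.le htd
    have hCp : 0 ≤ C * (2 ^ (1 / 2 + δ) * 2) := by positivity
    rcases le_or_gt (Real.log (N n)) t with htl | htl
    · have h2 : C * (((Nat.count Nat.Prime ⌈t⌉₊ : ℕ) : ℝ) ^ (1 / 2 + δ) * √(1 + Real.log (N n))) ≤
          C * (2 ^ (1 / 2 + δ) * 2) * (t ^ (1 / 2 + δ) * √(Real.log (N n))) := by
        have h3 : ((Nat.count Nat.Prime ⌈t⌉₊ : ℕ) : ℝ) ^ (1 / 2 + δ) ≤ 2 ^ (1 / 2 + δ) * t ^ (1 / 2 + δ) := by
          rw [← Real.mul_rpow (by norm_num) ht0.le]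
          exact Real.rpow_le_rpow (Nat.cast_nonneg _) hK2 (by positivity)
        have h4 : √(1 + Real.log (N n)) ≤ 2 * √(Real.log (N n)) := by
          have h5 : (2 : ℝ) * √(Real.log (N n)) = √(4 * Real.log (N n)) := by
            rw [Real.sqrt_mul (by norm_num), show (4 : ℝ) = 2 ^ 2 by norm_num, Real.sqrt_sq (by norm_num)]
          rw [h5]
          exact Real.sqrt_le_sqrt (by linarith)
        calc C * (((Nat.count Nat.Prime ⌈t⌉₊ : ℕ) : ℝ) ^ (1 / 2 + δ) * √(1 + Real.log (N n))) ≤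
            C * ((2 ^ (1 / 2 + δ) * t ^ (1 / 2 + δ)) * (2 * √(Real.log (N n)))) := by
              apply mul_le_mul_of_nonneg_left _ (by linarith)
              exact mul_le_mul h3 h4 (Real.sqrt_nonneg _) (by positivity)
          _ = _ := by ring
      have h3 : 1 + Real.log |((j n l * q : ℤ) : ℝ)| ≤ 4 * Real.log (N n) := by
        have h8 : |(q : ℝ)| ≤ |(q : ℝ) - (lam n * x + c n)| + |lam n * x + c n| := by
          have := abs_add_le ((q : ℝ) - (lam n * x + c n)) (lam n * x + c n)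
          rwa [sub_add_cancel] at this
        have h9 : |lam n * x + c n| ≤ B * N n * |x| + B * N n := by
          refine (abs_add_le _ _).trans (add_le_add ?_ hc)
          rw [abs_mul, abs_of_nonneg hlam0]
          exact mul_le_mul_of_nonneg_right hlam (abs_nonneg _)
        have h10 : |(q : ℝ)| ≤ (N n : ℝ) ^ 2 := by nlinarith
        have h11 : |((j n l * q : ℤ) : ℝ)| ≤ (N n : ℝ) ^ 3 := by
          push_cast
          rw [abs_mul]
          calc |(j n l : ℝ)| * |(q : ℝ)| ≤ N n * (N n : ℝ) ^ 2 := mul_le_mul (hLn.2 l hl) h10 (abs_nonneg _) hN0.le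
            _ = _ := by ring
        have hd0 : d ≠ 0 := by
          rintro rfl
          rcases hd with ⟨h1, _⟩ | ⟨a, h1, h2, _⟩ <;> omega
        have hmq : j n l * q ≠ 0 := by
          intro h0
          rw [h0, mul_zero] at hdk
          have : d * k ^ 2 ≠ 0 := mul_ne_zero hd0 (pow_ne_zero 2 hk)
          exact this hdk.symm
        have h12 : 0 < |((j n l * q : ℤ) : ℝ)| := abs_pos.2 (by exact_mod_cast hmq)
        have h13 := Real.log_le_log h12 h11
        rw [Real.log_pow] at h13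
        push_cast at h13 ⊢
        linarith
      have h4 : Real.log (N n) ≤ √t * √(Real.log (N n)) := by
        calc Real.log (N n) = √(Real.log (N n)) * √(Real.log (N n)) := hsl.symm
          _ ≤ _ := mul_le_mul_of_nonneg_right (Real.sqrt_le_sqrt htl) hsl0.le
      nlinarith
    · have h2 : |(split (S n l) d t : ℝ) - 1 / 2 * total (S n l) t| ≤ 2 * t := by
        have h3 : (split (S n l) d t : ℝ) ≤ total (S n l) t := by exact_mod_cast split_le _ _ _
        have h4 := total_le (S n l) t ht0.le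
        have h5 : (0 : ℝ) ≤ (split (S n l) d t : ℝ) := Nat.cast_nonneg _
        have h6 : (0 : ℝ) ≤ (total (S n l) t : ℝ) := Nat.cast_nonneg _
        rw [abs_le]
        constructor <;> linarith
      have h3 : t ≤ √t * √(Real.log (N n)) := by
        calc t = √t * √t := hsq.symm
          _ ≤ _ := mul_le_mul_of_nonneg_left (Real.sqrt_le_sqrt htl.le) hst0.le
      have h4 : 0 ≤ t ^ (1 / 2 + δ) * √(Real.log (N n)) := by positivity
      nlinarith
  refine ⟨fun δ hδ => ?_, ?_⟩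
  · obtain ⟨θ, C, hθ, _, H⟩ := part1 δ hδ
    exact ⟨θ, C, hθ, H⟩
  obtain ⟨θ, C, hθ, hθ1, H⟩ := part1 (1 / 8) (by norm_num)
  refine ⟨θ, hθ, fun η hη B T N lam c hS L j hL => ?_⟩
  have hNr : Tendsto (fun n : ℕ => (N n : ℝ)) atTop atTop := by
    have h1 : Tendsto (fun n : ℕ => Real.exp ((n : ℝ) ^ η)) atTop atTop :=
      Real.tendsto_exp_atTop.comp ((tendsto_rpow_atTop hη).comp tendsto_natCast_atTop_atTop)
    exact tendsto_atTop_mono' _ (hS.mono fun n hn => hn.1) h1
  have hlogr : Tendsto (fun n : ℕ => Real.log (N n)) atTop atTop := Real.tendsto_log_atTop.comp hNr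
  filter_upwards [H η hη B T N lam c hS L j (fun _ _ => Set.univ) hL] with x hx ε hε M
  obtain ⟨t₀, ht₀⟩ := (grow (|C| * √(1 / ε)) M).exists_forall_of_atTop
  filter_upwards [hx, hS, hL, hNr.eventually_ge_atTop 16, hNr.eventually_ge_atTop (B * |x| + B + 1),
    hlogr.eventually_ge_atTop ((3 + |t₀|) / ε),
    hNr.eventually (Pool.Agent.Run7.h582.FM.log_le_rpow_ev 8 θ hθ), hlogr.eventually_ge_atTop 4]
    with n hn hsc hLn hN16 hNB hlt hl8 hl4 q hq l hl d k hd hk hdk hdN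
  obtain ⟨_, hc, hlam, hNl⟩ := hsc
  have hN0 : (0 : ℝ) < N n := by linarith
  have hlog0 : 0 < Real.log (N n) := by linarith
  have hd0 : d ≠ 0 := by
    rintro rfl
    rcases hd with ⟨h1, _⟩ | ⟨a, h1, h2, _⟩ <;> omega
  have hd0' : 0 < |(d : ℝ)| := abs_pos.2 (by exact_mod_cast hd0)
  have hlam0 : 0 ≤ lam n := by
    by_contra hneg
    push Not at hneg
    have : lam n * Real.log (N n) ^ T ≤ 0 := mul_nonpos_of_nonpos_of_nonneg hneg.le (by positivity)
    linarith
  obtain ⟨y, hy⟩ : ∃ y, y = Real.log |(d : ℝ)| := ⟨_, rfl⟩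
  rw [← hy]
  have hy1 : ε * Real.log (N n) ≤ y := by
    rw [hy, ← Real.log_rpow hN0]
    exact Real.log_le_log (by positivity) hdN
  have hy3 : 3 + |t₀| ≤ y := by
    refine le_trans ?_ hy1
    rw [div_le_iff₀ hε] at hlt
    linarith
  have ht₀' : 0 ≤ |t₀| := abs_nonneg _
  have hyge : 3 ≤ y := by linarith
  have hy4 : y ≤ 4 * Real.log (N n) := by
    have h8 : |(q : ℝ)| ≤ |(q : ℝ) - (lam n * x + c n)| + |lam n * x + c n| := by
      have := abs_add_le ((q : ℝ) - (lam n * x + c n)) (lam n * x + c n)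
      rwa [sub_add_cancel] at this
    have h9 : |lam n * x + c n| ≤ B * N n * |x| + B * N n := by
      refine (abs_add_le _ _).trans (add_le_add ?_ hc)
      rw [abs_mul, abs_of_nonneg hlam0]
      exact mul_le_mul_of_nonneg_right hlam (abs_nonneg _)
    have hθ' : (N n : ℝ) ^ θ ≤ (N n : ℝ) ^ 2 := by
      rw [← Real.rpow_two]
      exact Real.rpow_le_rpow_of_exponent_le (by linarith) (by linarith)
    have h10 : |(q : ℝ)| ≤ 2 * (N n : ℝ) ^ 2 := by nlinarith
    have h11 : |((j n l * q : ℤ) : ℝ)| ≤ 2 * (N n : ℝ) ^ 3 := by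
      push_cast
      rw [abs_mul]
      calc |(j n l : ℝ)| * |(q : ℝ)| ≤ N n * (2 * (N n : ℝ) ^ 2) := mul_le_mul (hLn.2 l hl) h10 (abs_nonneg _) hN0.le
        _ = _ := by ring
    have h12 : |(d : ℝ)| ≤ 4 * |((j n l * q : ℤ) : ℝ)| := by
      have h13 : (4 : ℝ) * ((j n l * q : ℤ) : ℝ) = d * (k : ℝ) ^ 2 := by exact_mod_cast hdk
      have h14 : 1 ≤ (k : ℝ) ^ 2 := by
        have : 1 ≤ k ^ 2 := Int.one_le_abs (pow_ne_zero 2 hk) |>.trans (le_of_eq (abs_of_nonneg (sq_nonneg k)))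
        exact_mod_cast this
      calc |(d : ℝ)| ≤ |(d : ℝ)| * (k : ℝ) ^ 2 := le_mul_of_one_le_right (abs_nonneg _) h14
        _ = |(d : ℝ) * (k : ℝ) ^ 2| := by rw [abs_mul, abs_of_nonneg (sq_nonneg (k : ℝ))]
        _ = |4 * ((j n l * q : ℤ) : ℝ)| := by rw [h13]
        _ = _ := by rw [abs_mul]; norm_num
    have h13 : |(d : ℝ)| ≤ (N n : ℝ) ^ 4 := by
      have h14 : (8 : ℝ) * (N n : ℝ) ^ 3 ≤ N n * (N n : ℝ) ^ 3 := mul_le_mul_of_nonneg_right (by linarith) (by positivity)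
      have h15 : N n * (N n : ℝ) ^ 3 = (N n : ℝ) ^ 4 := by ring
      linarith
    rw [hy]
    have h14 := Real.log_le_log hd0' h13
    rw [Real.log_pow] at h14
    exact_mod_cast h14
  have hly1 : 1 ≤ Real.log y := by
    rw [Real.le_log_iff_exp_le (by linarith)]
    linarith [Real.exp_one_lt_d9]
  have hly2 : Real.log y ≤ y := (Real.log_le_sub_one_of_pos (by linarith)).trans (by linarith)
  obtain ⟨t, ht⟩ : ∃ t, t = y ^ 2 * Real.log y ^ 2 := ⟨_, rfl⟩
  rw [← ht]
  have hty : y ^ 2 ≤ t := by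
    rw [ht]
    exact le_mul_of_one_le_right (by positivity) (one_le_pow₀ hly1)
  have ht9 : 9 ≤ t := by nlinarith
  have htt0 : t₀ ≤ t := by
    have := le_abs_self t₀
    nlinarith
  have htN : t ≤ (N n : ℝ) ^ θ := by
    refine le_trans ?_ hl8
    have h1 : t ≤ y ^ 4 := by
      rw [ht]
      calc y ^ 2 * Real.log y ^ 2 ≤ y ^ 2 * y ^ 2 := mul_le_mul_of_nonneg_left (pow_le_pow_left₀ (by linarith) hly2 2) (by positivity)
        _ = y ^ 4 := by ring
    have h2 : y ≤ Real.log (N n) ^ 2 := by nlinarith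
    calc t ≤ y ^ 4 := h1
      _ ≤ (Real.log (N n) ^ 2) ^ 4 := pow_le_pow_left₀ (by linarith) h2 4
      _ = _ := by ring
  have h1 := hn q hq l hl d k hd hk hdk t (by linarith) htN
  have ht0 : 0 < t := by linarith
  have h2 : C * (t ^ (1 / 2 + 1 / 8 : ℝ) * √(Real.log (N n))) ≤ |C| * √(1 / ε) * t ^ (7 / 8 : ℝ) := by
    have h3 : √(Real.log (N n)) ≤ √(1 / ε) * t ^ (1 / 4 : ℝ) := by
      have h4 : Real.log (N n) ≤ 1 / ε * y := by
        rw [one_div, inv_mul_eq_div, le_div_iff₀ hε]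
        linarith
      have h5 : √y ≤ t ^ (1 / 4 : ℝ) := by
        rw [Real.sqrt_eq_rpow]
        calc y ^ (1 / 2 : ℝ) = (y ^ 2) ^ (1 / 4 : ℝ) := by
              rw [← Real.rpow_natCast, ← Real.rpow_mul (by linarith)]
              norm_num
          _ ≤ t ^ (1 / 4 : ℝ) := Real.rpow_le_rpow (by positivity) hty (by norm_num)
      calc √(Real.log (N n)) ≤ √(1 / ε * y) := Real.sqrt_le_sqrt h4
        _ = √(1 / ε) * √y := Real.sqrt_mul (by positivity) y
        _ ≤ _ := mul_le_mul_of_nonneg_left h5 (Real.sqrt_nonneg _)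
    have h6 : t ^ (7 / 8 : ℝ) = t ^ (1 / 2 + 1 / 8 : ℝ) * t ^ (1 / 4 : ℝ) := by
      rw [← Real.rpow_add ht0]
      norm_num
    calc C * (t ^ (1 / 2 + 1 / 8 : ℝ) * √(Real.log (N n))) ≤ |C| * (t ^ (1 / 2 + 1 / 8 : ℝ) * √(Real.log (N n))) :=
          mul_le_mul_of_nonneg_right (le_abs_self C) (by positivity)
      _ ≤ |C| * (t ^ (1 / 2 + 1 / 8 : ℝ) * (√(1 / ε) * t ^ (1 / 4 : ℝ))) := by
          apply mul_le_mul_of_nonneg_left _ (abs_nonneg _)
          exact mul_le_mul_of_nonneg_left h3 (by positivity)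
      _ = _ := by rw [h6]; ring
  have h3 := ht₀ t htt0
  have h4 := total_univ t (by linarith)
  have h5 : t / (16 * Real.log t) = 1 / 2 * (t / (8 * Real.log t)) := by
    have : Real.log t ≠ 0 := (Real.log_pos (by linarith)).ne'
    field_simp
    norm_num
  rw [h5] at h3
  have h6 := (abs_le.1 h1).1
  have h7 : (M : ℝ) ≤ (split Set.univ d t : ℝ) := by linarith
  exact_mod_cast h7

end Pool.Agent.Results.MP_aaa0df_nt.FourierDecayFields
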